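import Pool.Agent.MP_352b69_co.Proof

open Pool.Agent.MP_352b69_co in
theorem Pool.Agent.Results.MP_352b69_co.NineCycle.result :
    ∃ G : Fin 9 → Fin 9 → Finset ℕ,
      (∀ u v, G u v = G v u) ∧ (∀ u, G u u = ∅) ∧
      ∀ (W : Type) (H : W → W → Finset ℕ), (∀ u, H u u = ∅) → (∀ u v, (H u v).card ≤ 1) →
        ¬ ∃ e : Fin 9 ≃ W, ∀ u v, Reach G u v ↔ Reach H (e u) (e v) :=
  ⟨G9, G9_symm, G9_loop, fun _ H _ hs ⟨e, he⟩ =>
    no_simple (fun a b => H (e a) (e b)) (fun _ _ => hs _ _)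
      fun u v => (he u v).trans (reach_comap e H u v).symm⟩
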